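import Pool.Agent.Helper82.BR.Fin2

/-!
# MP_514f88_co: circles and bisector-rich sets

A circle contains at most half of the points of a bisector-rich set if its centre is not a point of
the set, and at most eight ninths of the other points if its centre is a point of the set.
-/

namespace Pool.Agent.Results.MP_514f88_co.CircleBound

/-- The Euclidean plane. -/
abbrev Plane := EuclideanSpace ℝ (Fin 2)

/-- Bisector-rich sets, as in the problem. -/
def BisectorRich (S : Set Plane) : Prop :=
  S.Finite ∧ 2 ≤ S.ncard ∧
    ∀ p ∈ S, ∀ q ∈ S, p ≠ q →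
      2 ≤ ((AffineSubspace.perpBisector p q : Set Plane) ∩ S).ncard

/-- How many points of a bisector-rich set lie on a circle. -/
theorem result (S : Set Plane) (hS : BisectorRich S) (c : Plane) (r : ℝ) (hr : 0 < r) :
    (c ∉ S → 2 * (Metric.sphere c r ∩ S).ncard ≤ S.ncard) ∧
    (c ∈ S → 9 * (Metric.sphere c r ∩ S).ncard ≤ 8 * (S.ncard - 1)) := by
  obtain ⟨T, hTc, hTR, h2, hmem, hcount⟩ := Pool.Agent.Helper82.BR.count_C (S := S) hS
  set φ := Complex.orthonormalBasisOneI.repr with hφ
  have h1 := Pool.Agent.Helper82.BR.circ_C hTR h2 (φ.symm c) r hr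
  have hc : c ∈ S ↔ φ.symm c ∈ T := by
    rw [← hmem, LinearIsometryEquiv.apply_symm_apply]
  have h3 := hcount (Metric.sphere c r) (fun s => dist s (φ.symm c) = r) (by
      intro z _ hz
      rw [Metric.mem_sphere] at hz
      rw [← hz, ← LinearIsometryEquiv.dist_map φ, LinearIsometryEquiv.apply_symm_apply])
  constructor
  · intro h
    have := h1.1 (fun h' => h (hc.mpr h'))
    omega
  · intro h
    have := h1.2 (hc.mp h)
    omega

end Pool.Agent.Results.MP_514f88_co.CircleBound
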