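import Pool.Agent.Helper82.BR.Fin
import Pool.Agent.Helper82.BR.Asm8
import Pool.Agent.Helper11.BR.M_GP
import Pool.Agent.Helper21.BR.M_R2C
import Pool.Agent.Helper24.BR.M_SHP
import Pool.Agent.Helper31.BR.M_N4
import Pool.Agent.Helper32.BR.M_R3
import Pool.Agent.Helper42.BR.M_E1
import Pool.Agent.Helper44.BR.M_CFG
import Pool.Agent.Helper45.BR.M_SB
import Pool.Agent.Helper52.BR.M_KT
import Pool.Agent.Helper53.BR.M_R2A
import Pool.Agent.Helper63.BR.M_KR
import Pool.Agent.Helper63.BR.M_NA2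
import Pool.Agent.Helper67.BR.M_NA1
import Pool.Agent.Helper72.BR.M_R2B
import Pool.Agent.Helper73.BR.M_PL
import Pool.Agent.Helper84.BR.M_R2D

/-!
# MP_514f88_co: the bisector-rich sets with at most eight points
-/

namespace Pool.Agent.Results.MP_514f88_co.EightPoints

/-- The Euclidean plane. -/
abbrev Plane := EuclideanSpace ℝ (Fin 2)

/-- Bisector-rich sets, as in the problem. -/
def BisectorRich (S : Set Plane) : Prop :=
  S.Finite ∧ 2 ≤ S.ncard ∧
    ∀ p ∈ S, ∀ q ∈ S, p ≠ q →
      2 ≤ ((AffineSubspace.perpBisector p q : Set Plane) ∩ S).ncard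

/-- Kelly's sets: the square with vertices `(±1, ±1)` and the apexes of the equilateral triangles
built on its sides, outward for `h = 1 + √3` and inward for `h = 1 - √3`. -/
def kelly (h : ℝ) : Set Plane :=
  {!₂[1, 1], !₂[-1, 1], !₂[1, -1], !₂[-1, -1], !₂[h, 0], !₂[-h, 0], !₂[0, h], !₂[0, -h]}

/-- Some map of the plane multiplying all distances by one positive constant carries `S` onto
`K`. -/
def SimilarTo (S K : Set Plane) : Prop :=
  ∃ f : Plane → Plane, ∃ r : ℝ, 0 < r ∧ (∀ x y, dist (f x) (f y) = r * dist x y) ∧ f '' S = K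

/-- The similarity carrying the inward set onto the outward one. -/
theorem inout : SimilarTo (kelly (1 - Real.sqrt 3)) (kelly (1 + Real.sqrt 3)) := by
  have h3 : Real.sqrt 3 ^ 2 = 3 := Real.sq_sqrt (by norm_num)
  have h30 : 0 ≤ Real.sqrt 3 := Real.sqrt_nonneg 3
  set t := Real.sqrt 3 with ht
  refine ⟨fun v => !₂[(1 + t) / 2 * (v 0 - v 1), (1 + t) / 2 * (v 0 + v 1)],
    Real.sqrt 2 * ((1 + t) / 2), by positivity, ?_, ?_⟩
  · intro x y
    rw [EuclideanSpace.dist_eq, EuclideanSpace.dist_eq]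
    simp only [Fin.sum_univ_two, Real.dist_eq, sq_abs, Matrix.cons_val_zero,
      Matrix.cons_val_one]
    rw [show Real.sqrt 2 * ((1 + t) / 2) = Real.sqrt (2 * ((1 + t) / 2) ^ 2) by
      rw [Real.sqrt_mul (by norm_num), Real.sqrt_sq (by positivity)], ← Real.sqrt_mul (by positivity)]
    congr 1
    ring
  · have key : ∀ a b c d : ℝ, c = (1 + t) / 2 * (a - b) → d = (1 + t) / 2 * (a + b) →
        (!₂[(1 + t) / 2 * ((!₂[a, b] : Plane) 0 - (!₂[a, b] : Plane) 1),
          (1 + t) / 2 * ((!₂[a, b] : Plane) 0 + (!₂[a, b] : Plane) 1)] : Plane) = !₂[c, d] := by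
      intro a b c d hc hd
      subst hc hd
      simp
    have k1 := key 1 1 0 (1 + t) (by ring) (by ring)
    have k2 := key (-1) 1 (-(1 + t)) 0 (by ring) (by ring)
    have k3 := key 1 (-1) (1 + t) 0 (by ring) (by ring)
    have k4 := key (-1) (-1) 0 (-(1 + t)) (by ring) (by ring)
    have k5 := key (1 - t) 0 (-1) (-1) (by nlinarith) (by nlinarith)
    have k6 := key (-(1 - t)) 0 1 1 (by nlinarith) (by nlinarith)
    have k7 := key 0 (1 - t) 1 (-1) (by nlinarith) (by nlinarith)
    have k8 := key 0 (-(1 - t)) (-1) 1 (by nlinarith) (by nlinarith)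
    unfold kelly
    simp only [Set.image_insert_eq, Set.image_singleton]
    rw [k1, k2, k3, k4, k5, k6, k7, k8]
    ext v
    simp only [Set.mem_insert_iff, Set.mem_singleton_iff]
    tauto

theorem toOut {S : Set Plane} (h : SimilarTo S (kelly (1 - Real.sqrt 3))) :
    SimilarTo S (kelly (1 + Real.sqrt 3)) := by
  obtain ⟨f, r, hr, hf, hS⟩ := h
  obtain ⟨g, s, hs, hg, hK⟩ := inout
  refine ⟨g ∘ f, s * r, by positivity, ?_, ?_⟩
  · intro x y
    simp only [Function.comp_apply]
    rw [hg, hf]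
    ring
  · rw [Set.image_comp, hS, hK]

/-- The main part: at most eight points. -/
theorem main8 : ∀ S : Set Plane, BisectorRich S → S.ncard ≤ 8 →
    S.ncard = 8 ∧ SimilarTo S (kelly (1 + Real.sqrt 3)) := by
  intro S hS h8
  obtain ⟨T, hTm, hTc, hTR⟩ := Pool.Agent.Helper41.BR.hTR S hS
  have h2 : 2 ≤ T.card := hTc ▸ hS.2.1
  have h8' := Pool.Agent.Helper82.BR.eight hTR h2
  have hT8 : T.card = 8 := by omega
  refine ⟨by omega, ?_⟩
  have hfin := Pool.Agent.Helper73.BR.hPL S T hTm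
    (Pool.Agent.Helper82.BR.class8
      Pool.Agent.Helper82.BR.sim
      Pool.Agent.Helper85.BR.hCB
      (Pool.Agent.Helper67.BR.hNA1 Pool.Agent.Helper82.BR.lin
        Pool.Agent.Helper82.BR.sim)
      Pool.Agent.Helper63.BR.hNA2
      Pool.Agent.Helper31.BR.hN4
      Pool.Agent.Helper42.BR.hE1
      Pool.Agent.Helper11.BR.hGP
      (Pool.Agent.Helper44.BR.hCFG Pool.Agent.Helper85.BR.hCB)
      Pool.Agent.Helper32.BR.hR3
      Pool.Agent.Helper53.BR.hR2A
      Pool.Agent.Helper72.BR.hR2B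
      Pool.Agent.Helper21.BR.hR2C
      Pool.Agent.Helper84.BR.hR2D
      Pool.Agent.Helper24.BR.hSHP
      Pool.Agent.Helper45.BR.hSB T hTR hT8)
  rcases hfin with h | h
  · exact h
  · exact toOut h

theorem rich_kelly : BisectorRich (kelly (1 + Real.sqrt 3)) := by
  have h := Pool.Agent.Helper63.BR.hKR (1 + Real.sqrt 3) (Or.inl rfl)
  exact Pool.Agent.Helper52.BR.hKT (1 + Real.sqrt 3) h.1 h.2

theorem ncard_kelly (h : ℝ) : (kelly h).ncard ≤ 8 := by
  unfold kelly
  exact (Set.ncard_insert_le _ _).trans (Nat.succ_le_succ ((Set.ncard_insert_le _ _).trans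
    (Nat.succ_le_succ ((Set.ncard_insert_le _ _).trans (Nat.succ_le_succ
    ((Set.ncard_insert_le _ _).trans (Nat.succ_le_succ ((Set.ncard_insert_le _ _).trans
    (Nat.succ_le_succ ((Set.ncard_insert_le _ _).trans (Nat.succ_le_succ
    ((Set.ncard_insert_le _ _).trans (Nat.succ_le_succ
    (le_of_eq (Set.ncard_singleton _)))))))))))))))

/-- Similarity pulls the property back. -/
theorem back {S K : Set Plane} (hK : BisectorRich K) (hs : SimilarTo S K) :
    BisectorRich S ∧ S.ncard = K.ncard := by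
  obtain ⟨f, r, hr, hf, hS⟩ := hs
  have hinj : Function.Injective f := by
    intro x y hxy
    have h1 := hf x y
    rw [hxy, dist_self] at h1
    rcases mul_eq_zero.mp h1.symm with h | h
    · exact absurd h hr.ne'
    · exact dist_eq_zero.mp h
  have hc : S.ncard = K.ncard := by rw [← hS, Set.ncard_image_of_injective _ hinj]
  have hfin : S.Finite := by
    have h1 : (f '' S).Finite := by rw [hS]; exact hK.1
    exact h1.of_finite_image hinj.injOn
  refine ⟨⟨hfin, hc ▸ hK.2.1, ?_⟩, hc⟩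
  intro p hp q hq hpq
  have hfp : f p ∈ K := hS ▸ Set.mem_image_of_mem f hp
  have hfq : f q ∈ K := hS ▸ Set.mem_image_of_mem f hq
  have h2 := hK.2.2 _ hfp _ hfq (hinj.ne hpq)
  have himg : (AffineSubspace.perpBisector (f p) (f q) : Set Plane) ∩ K =
      f '' ((AffineSubspace.perpBisector p q : Set Plane) ∩ S) := by
    ext z
    constructor
    · rintro ⟨hz1, hz2⟩
      rw [← hS] at hz2
      obtain ⟨s, hs, rfl⟩ := hz2
      refine ⟨s, ⟨?_, hs⟩, rfl⟩
      rw [SetLike.mem_coe, AffineSubspace.mem_perpBisector_iff_dist_eq] at hz1 ⊢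
      rw [hf, hf] at hz1
      exact mul_left_cancel₀ hr.ne' hz1
    · rintro ⟨s, ⟨hs1, hs2⟩, rfl⟩
      refine ⟨?_, hS ▸ Set.mem_image_of_mem f hs2⟩
      rw [SetLike.mem_coe, AffineSubspace.mem_perpBisector_iff_dist_eq] at hs1 ⊢
      rw [hf, hf, hs1]
  rw [himg, Set.ncard_image_of_injective _ hinj] at h2
  exact h2

/-- The bisector-rich sets with at most eight points are exactly the sets similar to Kelly's
(outward) set, which has eight points; the inward set is similar to it. -/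
theorem result :
    (∀ S : Set Plane, (BisectorRich S ∧ S.ncard ≤ 8) ↔ SimilarTo S (kelly (1 + Real.sqrt 3))) ∧
    (kelly (1 + Real.sqrt 3)).ncard = 8 ∧
    SimilarTo (kelly (1 - Real.sqrt 3)) (kelly (1 + Real.sqrt 3)) := by
  have h8 : (kelly (1 + Real.sqrt 3)).ncard = 8 := (main8 _ rich_kelly (ncard_kelly _)).1
  refine ⟨fun S => ⟨fun h => (main8 S h.1 h.2).2, fun h => ?_⟩, h8, inout⟩
  obtain ⟨h1, h2⟩ := back rich_kelly h
  exact ⟨h1, by omega⟩

end Pool.Agent.Results.MP_514f88_co.EightPoints
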