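import Pool.Agent.Helper82.BR.Fin2

/-!
# MP_514f88_co: lines and bisector-rich sets

Every line contains at most `n/4 + 1` points of an `n`-point bisector-rich set.
-/

namespace Pool.Agent.Results.MP_514f88_co.LineBound

open scoped ComplexConjugate

/-- The Euclidean plane. -/
abbrev Plane := EuclideanSpace ℝ (Fin 2)

/-- Bisector-rich sets, as in the problem. -/
def BisectorRich (S : Set Plane) : Prop :=
  S.Finite ∧ 2 ≤ S.ncard ∧
    ∀ p ∈ S, ∀ q ∈ S, p ≠ q →
      2 ≤ ((AffineSubspace.perpBisector p q : Set Plane) ∩ S).ncard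

/-- Every line contains at most `n/4 + 1` points of an `n`-point bisector-rich set. -/
theorem result (S : Set Plane) (hS : BisectorRich S) (L : AffineSubspace ℝ Plane)
    (hL : Module.finrank ℝ L.direction = 1) :
    4 * ((L : Set Plane) ∩ S).ncard ≤ S.ncard + 4 := by
  obtain ⟨T, hTc, hTR, h2, -, hcount⟩ := Pool.Agent.Helper82.BR.count_C (S := S) hS
  rcases Set.eq_empty_or_nonempty (L : Set Plane) with hne | ⟨c, hc⟩
  · rw [hne]; simp
  obtain ⟨v, hv0, hv⟩ := finrank_eq_one_iff'.mp hL
  set φ := Complex.orthonormalBasisOneI.repr with hφ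
  have hv1 : (v : Plane) ≠ 0 := fun h => hv0 (Subtype.ext h)
  have hu : φ.symm (v : Plane) ≠ 0 := by
    intro h
    apply hv1
    have := congrArg φ h
    rwa [LinearIsometryEquiv.apply_symm_apply, map_zero] at this
  have h1 := Pool.Agent.Helper82.BR.line_C hTR h2 (φ.symm c) (φ.symm (v : Plane)) hu
  have h3 := hcount (L : Set Plane)
    (fun s => ((s - φ.symm c) * conj (φ.symm (v : Plane))).im = 0) (by
      intro z _ hz
      have hd : φ z - c ∈ L.direction := by
        have := AffineSubspace.vsub_mem_direction hz hc
        simpa using this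
      obtain ⟨t, ht⟩ := hv ⟨φ z - c, hd⟩
      have ht' : t • (v : Plane) = φ z - c := by
        have := congrArg Subtype.val ht
        simpa using this
      have h4 : z - φ.symm c = t • φ.symm (v : Plane) := by
        rw [← map_smul, ht', map_sub, LinearIsometryEquiv.symm_apply_apply]
      rw [h4, Complex.real_smul, mul_assoc, Complex.mul_conj, ← Complex.ofReal_mul]
      exact Complex.ofReal_im _)
  omega

end Pool.Agent.Results.MP_514f88_co.LineBound
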