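import Mathlib

/-!
# MP_514f88_co: a 2-adic obstruction to bisector-rich sets

A finite plane set with coordinates in a real field `K` carrying a valuation for which `-1` is not a
square modulo `4` has a pair of points whose perpendicular bisector misses the whole set.
-/

namespace Pool.Agent.Results.MP_514f88_co.TwoAdicObstruction

open WithZero

/-- The Euclidean plane. -/
abbrev Plane := EuclideanSpace ℝ (Fin 2)

/-- Bisector-rich sets, as in the problem. -/
def BisectorRich (S : Set Plane) : Prop :=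
  S.Finite ∧ 2 ≤ S.ncard ∧
    ∀ p ∈ S, ∀ q ∈ S, p ≠ q →
      2 ≤ ((AffineSubspace.perpBisector p q : Set Plane) ∩ S).ncard

/-- `S` can be moved by a similarity of the plane (a map multiplying all distances by a constant
`r > 0`) to a set all of whose coordinates lie in `K`. -/
def SimilarInto (K : Subfield ℝ) (S : Set Plane) : Prop :=
  ∃ f : Plane → Plane, ∃ r : ℝ, 0 < r ∧ (∀ x y, dist (f x) (f y) = r * dist x y) ∧
    ∀ p ∈ S, ∀ i, f p i ∈ K

/-- Some perpendicular bisector of two points of `S` contains no point of `S` at all. -/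
def HasEmptyBisector (S : Set Plane) : Prop :=
  ∃ p ∈ S, ∃ q ∈ S, p ≠ q ∧ ∀ u ∈ S, u ∉ AffineSubspace.perpBisector p q

/-- The key estimate: two distinct vectors of the same length are closer (2-adically) to each
other than to the origin. -/
lemma key {K : Type*} [Field K] {Γ : Type*} [LinearOrderedCommGroupWithZero Γ]
    (v : Valuation K Γ) (hv : ∀ t : K, v 4 < v (1 + t ^ 2))
    (a₁ a₂ b₁ b₂ : K) (h : a₁ ^ 2 + a₂ ^ 2 = b₁ ^ 2 + b₂ ^ 2)
    (ha : a₁ ^ 2 + a₂ ^ 2 ≠ 0) :
    v ((a₁ - b₁) ^ 2 + (a₂ - b₂) ^ 2) < v (a₁ ^ 2 + a₂ ^ 2) := by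
  have h4 : v 4 < 1 := by simpa using hv 0
  have h2 : v 2 < 1 := by
    by_contra hcon
    have h1 : (1 : Γ) ≤ v 2 := not_lt.mp hcon
    have h22 : v 4 = v 2 * v 2 := by rw [← map_mul]; norm_num
    have : (1 : Γ) ≤ v 2 * v 2 := one_le_mul_of_one_le_of_one_le h1 h1
    rw [h22] at h4
    exact absurd h4 (not_lt.mpr this)
  set N := a₁ ^ 2 + a₂ ^ 2 with hN
  set X := a₁ * b₁ + a₂ * b₂ with hX
  set Y := a₁ * b₂ - a₂ * b₁ with hY
  have hXY : X ^ 2 + Y ^ 2 = N ^ 2 := by
    have : X ^ 2 + Y ^ 2 = (a₁ ^ 2 + a₂ ^ 2) * (b₁ ^ 2 + b₂ ^ 2) := by rw [hX, hY]; ring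
    rw [this, ← h, hN]; ring
  have hvN : v N ≠ 0 := (Valuation.ne_zero_iff v).mpr ha
  have hX2 : v (2 * X) < v N := by
    by_cases hX0 : X = 0
    · rw [hX0, mul_zero, map_zero]; exact zero_lt_iff.mpr hvN
    · have h1 := hv (Y / X)
      have hvX : v X ≠ 0 := (Valuation.ne_zero_iff v).mpr hX0
      have e1 : (1 + (Y / X) ^ 2) * X ^ 2 = N ^ 2 := by
        rw [← hXY]; field_simp
      have e2 : v 4 * v X ^ 2 < v N ^ 2 := by
        have : v (1 + (Y / X) ^ 2) * v X ^ 2 = v N ^ 2 := by
          rw [← map_pow, ← map_mul, e1, map_pow]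
        rw [← this]
        exact mul_lt_mul_of_pos_right h1 (pow_pos (zero_lt_iff.mpr hvX) 2)
      have e3 : v 4 * v X ^ 2 = v (2 * X) ^ 2 := by
        rw [← map_pow, ← map_pow, ← map_mul]; ring_nf
      rw [e3] at e2
      exact lt_of_pow_lt_pow_left₀ 2 zero_le e2
  have h2N : v (2 * N) < v N := by
    rw [map_mul]
    calc v 2 * v N < 1 * v N := mul_lt_mul_of_pos_right h2 (zero_lt_iff.mpr hvN)
      _ = v N := one_mul _
  have e : (a₁ - b₁) ^ 2 + (a₂ - b₂) ^ 2 = 2 * N - 2 * X := by
    have : (a₁ - b₁) ^ 2 + (a₂ - b₂) ^ 2 = (a₁ ^ 2 + a₂ ^ 2) + (b₁ ^ 2 + b₂ ^ 2) - 2 * X := by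
      rw [hX]; ring
    rw [this, ← h]; ring
  rw [e]
  exact Valuation.map_sub_lt v h2N hX2

lemma dist_sq (p q : Plane) : dist p q ^ 2 = (p 0 - q 0) ^ 2 + (p 1 - q 1) ^ 2 := by
  rw [EuclideanSpace.dist_eq, Real.sq_sqrt (Finset.sum_nonneg fun i _ => sq_nonneg _)]
  simp [Fin.sum_univ_two, Real.dist_eq, sq_abs]

/-- The theorem for sets inside `K²`. -/
lemma inside (K : Subfield ℝ) {Γ : Type*} [LinearOrderedCommGroupWithZero Γ]
    (v : Valuation K Γ) (hv : ∀ t : K, v 4 < v (1 + t ^ 2)) (S : Set Plane) (hf : S.Finite)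
    (h2 : S.Nontrivial) (hK : ∀ p ∈ S, ∀ i, p i ∈ K) : HasEmptyBisector S := by
  classical
  -- coordinates in `K`
  let c : S → Fin 2 → K := fun p i => ⟨p.1 i, hK p.1 p.2 i⟩
  let nn : S → S → K := fun p q => (c p 0 - c q 0) ^ 2 + (c p 1 - c q 1) ^ 2
  have hnn : ∀ p q : S, ((nn p q : K) : ℝ) = dist p.1 q.1 ^ 2 := by
    intro p q
    rw [dist_sq]
    simp only [nn, c]
    push_cast
    rfl
  let w : S × S → Γ := fun pq => v (nn pq.1 pq.2)
  have : Finite S := hf
  let T : Set (S × S) := {pq | pq.1 ≠ pq.2}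
  have hT : T.Nonempty := by
    obtain ⟨x, hx, y, hy, hxy⟩ := h2
    exact ⟨(⟨x, hx⟩, ⟨y, hy⟩), fun h => hxy (by simpa using h)⟩
  obtain ⟨pq, hpq, hmax⟩ := T.toFinite.exists_maximalFor w T hT
  have hmax' : ∀ rs ∈ T, w rs ≤ w pq := by
    intro rs hrs
    rcases le_total (w rs) (w pq) with h | h
    · exact h
    · exact hmax hrs h
  obtain ⟨p, q⟩ := pq
  have hne : p ≠ q := hpq
  refine ⟨p.1, p.2, q.1, q.2, fun h => hne (Subtype.ext h), ?_⟩
  intro u hu hup
  rw [AffineSubspace.mem_perpBisector_iff_dist_eq] at hup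
  have hpu : p ≠ ⟨u, hu⟩ := by
    rintro rfl
    rw [dist_self] at hup
    exact hne (Subtype.ext (dist_eq_zero.mp hup.symm))
  have h1 : nn p ⟨u, hu⟩ = nn q ⟨u, hu⟩ := by
    apply Subtype.coe_injective
    simp only [hnn]
    rw [dist_comm p.1 u, dist_comm q.1 u, hup]
  have h3 : nn p ⟨u, hu⟩ ≠ 0 := by
    intro h
    have h' := congrArg (fun x : K => (x : ℝ)) h
    simp only [hnn, ZeroMemClass.coe_zero] at h'
    have h'' : dist p.1 u = 0 := by simpa using h'
    exact hpu (Subtype.ext (dist_eq_zero.mp h''))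
  have h4 := key v hv (c p 0 - c ⟨u, hu⟩ 0) (c p 1 - c ⟨u, hu⟩ 1) (c q 0 - c ⟨u, hu⟩ 0)
    (c q 1 - c ⟨u, hu⟩ 1) h1 h3
  have h5 : (c p 0 - c ⟨u, hu⟩ 0 - (c q 0 - c ⟨u, hu⟩ 0)) ^ 2 +
      (c p 1 - c ⟨u, hu⟩ 1 - (c q 1 - c ⟨u, hu⟩ 1)) ^ 2 = nn p q := by
    simp only [nn]; ring
  rw [h5] at h4
  have h6 : w (p, ⟨u, hu⟩) ≤ w (p, q) := hmax' _ hpu
  exact absurd h4 (not_lt.mpr h6)

/-- Invariance under similarities. -/
lemma similar_empty (S : Set Plane) (f : Plane → Plane) (r : ℝ)
    (hf : ∀ x y, dist (f x) (f y) = r * dist x y) (h : HasEmptyBisector (f '' S)) :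
    HasEmptyBisector S := by
  obtain ⟨_, ⟨p, hp, rfl⟩, _, ⟨q, hq, rfl⟩, hne, hu⟩ := h
  refine ⟨p, hp, q, hq, fun h => hne (by rw [h]), ?_⟩
  intro u hus hup
  apply hu (f u) ⟨u, hus, rfl⟩
  rw [AffineSubspace.mem_perpBisector_iff_dist_eq] at hup ⊢
  rw [hf, hf, hup]

lemma general (K : Subfield ℝ) {Γ : Type*} [LinearOrderedCommGroupWithZero Γ]
    (v : Valuation K Γ) (hv : ∀ t : K, v 4 < v (1 + t ^ 2)) (S : Set Plane) (hf : S.Finite)
    (h2 : S.Nontrivial) (hK : SimilarInto K S) : HasEmptyBisector S := by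
  obtain ⟨f, r, hr, hd, hc⟩ := hK
  have hinj : Function.Injective f := by
    intro x y hxy
    have h1 := hd x y
    rw [hxy, dist_self] at h1
    have h3 : dist x y = 0 := by
      rcases mul_eq_zero.mp h1.symm with h | h
      · exact absurd h hr.ne'
      · exact h
    exact dist_eq_zero.mp h3
  apply similar_empty S f r hd
  apply inside K v hv _ (hf.image f) (h2.image hinj)
  rintro _ ⟨p, hp, rfl⟩ i
  exact hc p hp i

/-- A discrete valuation with `v(2)` odd satisfies the condition. -/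
lemma odd_cond {K : Type*} [Field K] (v : Valuation K ℤᵐ⁰) (e : ℕ) (he : Odd e)
    (h2 : v 2 = exp (-(e : ℤ))) (t : K) : v 4 < v (1 + t ^ 2) := by
  have h4 : v 4 = exp (-(2 * e : ℤ)) := by
    have : (4 : K) = 2 * 2 := by norm_num
    rw [this, map_mul, h2, ← exp_add]; congr 1; ring
  have hepos : (0 : ℤ) < e := by exact_mod_cast he.pos
  rw [h4]
  by_cases ht1 : v t = 1
  · -- the unit case
    have e1 : 1 + t ^ 2 = (1 + t) ^ 2 - 2 * t := by ring
    have hne : v ((1 + t) ^ 2) ≠ v (2 * t) := by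
      rw [map_mul, ht1, mul_one, h2, map_pow]
      intro hcon
      have hnz : v (1 + t) ≠ 0 := by
        intro h0
        rw [h0] at hcon
        simp at hcon
        exact exp_ne_zero hcon.symm
      have : v (1 + t) = exp (log (v (1 + t))) := (exp_log hnz).symm
      rw [this, ← exp_nsmul] at hcon
      have h := exp_injective hcon
      obtain ⟨k, hk⟩ := he
      rw [nsmul_eq_mul] at h
      push_cast [hk] at h
      omega
    rw [e1, sub_eq_add_neg, Valuation.map_add_of_distinct_val v (by rwa [Valuation.map_neg]),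
      Valuation.map_neg]
    apply lt_max_of_lt_right
    rw [map_mul, ht1, mul_one, h2]
    exact exp_lt_exp.mpr (by omega)
  · have hne : v (1 : K) ≠ v (t ^ 2) := by
      rw [map_one, map_pow]
      intro h
      apply ht1
      exact (pow_eq_one_iff_of_nonneg zero_le (by norm_num)).mp h.symm
    rw [Valuation.map_add_of_distinct_val v hne]
    apply lt_max_of_lt_left
    rw [map_one]
    rw [← exp_zero]
    exact exp_lt_exp.mpr (by omega)

/-- A number field of odd degree has a prime above `2` with odd ramification index. -/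
lemma exists_odd (K : Type*) [Field K] [NumberField K] (hodd : Odd (Module.finrank ℚ K)) :
    ∃ (v : Valuation K ℤᵐ⁰) (e : ℕ), Odd e ∧ v 2 = exp (-(e : ℤ)) := by
  classical
  let p : Ideal ℤ := Ideal.span {(2 : ℤ)}
  have hp0 : p ≠ ⊥ := by simp [p]
  have hpm : p.IsMaximal := by
    have : Prime (2 : ℤ) := Int.prime_two
    have hpp : p.IsPrime := (Ideal.span_singleton_prime (by norm_num)).mpr this
    exact hpp.isMaximal hp0
  have hsum := Ideal.sum_ramification_inertia (NumberField.RingOfIntegers K) ℚ K hp0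
  rw [← hsum] at hodd
  obtain ⟨P, hP, hoP⟩ : ∃ P ∈ IsDedekindDomain.primesOverFinset p (NumberField.RingOfIntegers K),
      Odd (Ideal.ramificationIdx' p P * Ideal.inertiaDeg' p P) := by
    by_contra hcon
    push Not at hcon
    have : Even (∑ P ∈ IsDedekindDomain.primesOverFinset p (NumberField.RingOfIntegers K),
        Ideal.ramificationIdx' p P * Ideal.inertiaDeg' p P) :=
      Finset.even_sum _ (fun P hP => Nat.not_odd_iff_even.mp (hcon P hP))
    exact (Nat.not_odd_iff_even.mpr this) hodd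
  have hoe : Odd (Ideal.ramificationIdx' p P) := (Nat.odd_mul.mp hoP).1
  rw [IsDedekindDomain.mem_primesOverFinset_iff hp0] at hP
  obtain ⟨hP1, hP2⟩ := hP
  have hmap : Ideal.map (algebraMap ℤ (NumberField.RingOfIntegers K)) p =
      Ideal.span {(2 : NumberField.RingOfIntegers K)} := by
    simp [p, Ideal.map_span]
  have h20 : (2 : NumberField.RingOfIntegers K) ≠ 0 := two_ne_zero
  have hmap0 : Ideal.map (algebraMap ℤ (NumberField.RingOfIntegers K)) p ≠ ⊥ := by
    rw [hmap]; simp
  have hPb : P ≠ ⊥ := by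
    intro h
    have hz : Ideal.ramificationIdx' p P = 0 := by
      apply Ideal.ramificationIdx'_of_not_le
      rw [h, le_bot_iff]; exact hmap0
    rw [hz] at hoe
    exact absurd hoe (by decide)
  let v : IsDedekindDomain.HeightOneSpectrum (NumberField.RingOfIntegers K) := ⟨P, hP1, hPb⟩
  refine ⟨v.valuation K, Ideal.ramificationIdx' p P, hoe, ?_⟩
  have h1 : (2 : K) = algebraMap (NumberField.RingOfIntegers K) K 2 :=
    (map_ofNat (algebraMap (NumberField.RingOfIntegers K) K) 2).symm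
  rw [h1, IsDedekindDomain.HeightOneSpectrum.valuation_of_algebraMap,
    IsDedekindDomain.HeightOneSpectrum.intValuation_eq_exp_neg_multiplicity _ h20,
    Ideal.IsDedekindDomain.ramificationIdx'_eq_multiplicity hmap0 hP1, hmap]

/-- The field `K` is admissible: either it carries a valuation (of any rank, written
multiplicatively) for which `-1` is not a square modulo `4`, or it has finite odd degree
over `ℚ`. -/
def Admissible (K : Subfield ℝ) : Prop :=
  (∃ (Γ : Type) (_ : LinearOrderedCommGroupWithZero Γ) (v : Valuation K Γ),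
    ∀ t : K, v 4 < v (1 + t ^ 2)) ∨
  (FiniteDimensional ℚ K ∧ Odd (Module.finrank ℚ K))

/-- **Theorem.** Let `K` be a subfield of `ℝ` which carries a valuation (of any rank) with
`v(4) < v(1 + t²)` for every `t ∈ K` (valuations are written multiplicatively: `-1` is not a square
modulo `4`), or which has finite odd degree over `ℚ`, and let `S` be a finite plane set with at
least two points which some similarity carries into `K²`. Then some perpendicular bisector of two
points of `S` misses `S`; in particular `S` is not bisector-rich. -/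
theorem result (K : Subfield ℝ) (hK : Admissible K) (S : Set Plane) (hf : S.Finite)
    (h2 : 2 ≤ S.ncard) (hS : SimilarInto K S) : HasEmptyBisector S ∧ ¬ BisectorRich S := by
  have hmain : ∀ (K : Subfield ℝ) (Γ : Type) [LinearOrderedCommGroupWithZero Γ]
      (v : Valuation K Γ), (∀ t : K, v 4 < v (1 + t ^ 2)) →
      ∀ S : Set Plane, S.Finite → 2 ≤ S.ncard → SimilarInto K S →
        HasEmptyBisector S ∧ ¬ BisectorRich S := by
    intro K Γ _ v hv S hf h2 hK
    have : Finite S := hf
    have hnt : S.Nontrivial := Set.one_lt_ncard_iff_nontrivial.mp h2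
    have h := general K v hv S hf hnt hK
    refine ⟨h, ?_⟩
    rintro ⟨_, _, hB⟩
    obtain ⟨p, hp, q, hq, hne, hu⟩ := h
    have h3 := hB p hp q hq hne
    have h4 : (AffineSubspace.perpBisector p q : Set Plane) ∩ S = ∅ := by
      ext u
      simp only [Set.mem_inter_iff, SetLike.mem_coe, Set.mem_empty_iff_false, iff_false, not_and]
      intro h5 h6
      exact hu u h6 h5
    rw [h4] at h3
    simp at h3
  rcases hK with ⟨Γ, inst, v, hv⟩ | ⟨hfin, hodd⟩
  · exact hmain K Γ v hv S hf h2 hS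
  · have : NumberField K := { to_charZero := inferInstance, to_finiteDimensional := hfin }
    obtain ⟨v, e, he, hv⟩ := exists_odd K hodd
    exact hmain K ℤᵐ⁰ v (odd_cond v e he hv) S hf h2 hS

end Pool.Agent.Results.MP_514f88_co.TwoAdicObstruction
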